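import Mathlib
import Pool.Agent.P.MP_d16342_al.Group

open Filter Topology Cardinal

namespace Pool.Agent.Results.MP_d16342_al.Counterexample

/-- every Cauchy sequence converges -/
def SeqComplete (G : Type) [UniformSpace G] : Prop :=
  ∀ u : ℕ → G, CauchySeq u → ∃ x : G, Tendsto u atTop (𝓝 x)

/-- local minimality -/
def LocallyMinimal (G : Type) [AddCommGroup G] [TopologicalSpace G] : Prop :=
  ∃ V ∈ 𝓝 (0 : G), ∀ (H : Type) [AddCommGroup H] [TopologicalSpace H] [IsTopologicalAddGroup H]
    [T2Space H] (f : G ≃+ H), Continuous f → f '' V ∈ 𝓝 (0 : H) → IsOpenMap f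

/-- the weight: least cardinality of a base -/
noncomputable def weight (X : Type) [TopologicalSpace X] : Cardinal :=
  sInf {κ : Cardinal | ∃ B : Set (Set X), TopologicalSpace.IsTopologicalBasis B ∧ #B = κ}

/-- Ulam-measurable cardinals -/
def UlamMeasurable (κ : Cardinal) : Prop :=
  ∃ S : Type, #S = κ ∧ ∃ U : Ultrafilter S, (∀ s : S, {s} ∉ U) ∧
    ∀ A : ℕ → Set S, (∀ n, A n ∈ U) → (⋂ n, A n) ∈ U

theorem result :
    ∃ (G : Type) (_ : AddCommGroup G) (_ : UniformSpace G) (_ : IsUniformAddGroup G)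
      (_ : T2Space G),
      SeqComplete G ∧ LocallyMinimal G ∧
      connectedComponent (0 : G) = {0} ∧
      ℵ₀ < weight (connectedComponent (0 : UniformSpace.Completion G)) ∧
      weight (connectedComponent (0 : G)) ≠
        weight (connectedComponent (0 : UniformSpace.Completion G)) ∧
      ¬ UlamMeasurable (weight (connectedComponent (0 : G))) ∧
      ((↑) : G → UniformSpace.Completion G) '' connectedComponent (0 : G) ≠
        connectedComponent (0 : UniformSpace.Completion G) := by
  have hw : ∀ (X : Type) [TopologicalSpace X], ∃ B : Set (Set X),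
      TopologicalSpace.IsTopologicalBasis B ∧ #B = weight X := fun X _ =>
    csInf_mem (s := {κ : Cardinal | ∃ B : Set (Set X),
      TopologicalSpace.IsTopologicalBasis B ∧ #B = κ})
      ⟨_, _, TopologicalSpace.isTopologicalBasis_opens, rfl⟩
  have hfin : ∀ (X : Type) [TopologicalSpace X] [Finite X], weight X ≤ ℵ₀ := by
    intro X _ _
    obtain ⟨B, -, hB⟩ := hw X
    rw [← hB]
    exact (Cardinal.lt_aleph0_of_finite B).le
  have hbig : ℵ₀ < weight (connectedComponent
      (0 : UniformSpace.Completion Pool.Agent.P.MP_d16342_al.G)) := by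
    by_contra h
    obtain ⟨B, hB1, hB2⟩ := hw (connectedComponent
      (0 : UniformSpace.Completion Pool.Agent.P.MP_d16342_al.G))
    rw [← hB2, not_lt, Cardinal.le_aleph0_iff_set_countable] at h
    exact Pool.Agent.P.MP_d16342_al.not_secondCountable (hB1.secondCountableTopology h)
  have hsmall : weight (connectedComponent (0 : Pool.Agent.P.MP_d16342_al.G)) ≤ ℵ₀ := by
    rw [Pool.Agent.P.MP_d16342_al.connectedComponent_G]
    exact hfin _
  refine ⟨Pool.Agent.P.MP_d16342_al.G, inferInstance, inferInstance, inferInstance, inferInstance,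
    Pool.Agent.P.MP_d16342_al.seq_complete,
    ⟨_, Pool.Agent.P.MP_d16342_al.V_mem, Pool.Agent.P.MP_d16342_al.locally_minimal⟩,
    Pool.Agent.P.MP_d16342_al.connectedComponent_G, hbig, (hsmall.trans_lt hbig).ne, ?_, ?_⟩
  · rintro ⟨S, hS, U, hU1, hU2⟩
    rw [← hS, Cardinal.mk_le_aleph0_iff] at hsmall
    have : Nonempty S := by
      obtain ⟨s, -⟩ := U.nonempty_of_mem Filter.univ_mem
      exact ⟨s⟩
    obtain ⟨g, hg⟩ := exists_surjective_nat S
    obtain ⟨s, hs⟩ := U.nonempty_of_mem
      (hU2 (fun n => {g n}ᶜ) (fun n => Ultrafilter.compl_mem_iff_notMem.2 (hU1 _)))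
    obtain ⟨n, rfl⟩ := hg s
    exact Set.mem_iInter.1 hs n rfl
  · intro h
    rw [← h, Pool.Agent.P.MP_d16342_al.connectedComponent_G, Set.image_singleton] at hbig
    exact absurd (hfin _) (not_le.2 hbig)

end Pool.Agent.Results.MP_d16342_al.Counterexample
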